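import Mathlib

set_option autoImplicit false
set_option linter.unusedSectionVars false

namespace Pool.Agent.Results.MP_e1d67a_co.UniqueApery

open Finsupp

/-- `S` is a numerical semigroup: a submonoid of `ℕ` with finite complement. -/
def IsNumSgp (S : AddSubmonoid ℕ) : Prop := ((S : Set ℕ)ᶜ).Finite

/-- The minimal generating set of `S`: the nonzero elements of `S` that are not a sum of two
nonzero elements of `S`. -/
def minGens (S : AddSubmonoid ℕ) : Set ℕ :=
  {x | x ∈ S ∧ x ≠ 0 ∧ ∀ y ∈ S, ∀ z ∈ S, y + z = x → y = 0 ∨ z = 0}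

/-- The embedding dimension. -/
noncomputable def embDim (S : AddSubmonoid ℕ) : ℕ := (minGens S).ncard

/-- The multiplicity. -/
noncomputable def mult (S : AddSubmonoid ℕ) : ℕ := sInf {x | x ∈ S ∧ x ≠ 0}

/-- For a family `g` of natural numbers, the map `a ↦ ∑ i, a i * g i`. -/
noncomputable def val {ι : Type*} (g : ι → ℕ) : (ι →₀ ℕ) →+ ℕ :=
  Finsupp.liftAddHom (fun i => AddMonoidHom.mulRight (g i))

/-- Factorization vectors: exponent vectors on the minimal generators. -/
abbrev Fac (S : AddSubmonoid ℕ) : Type := (minGens S) →₀ ℕ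

/-- The factorization map `φ : a ↦ ∑ a_i n_i`. -/
noncomputable def phi (S : AddSubmonoid ℕ) : Fac S →+ ℕ := val (fun x : minGens S => (x : ℕ))

/-- `ρ` generates the congruence `ker φ` of the family `g`. -/
def IsPres {ι : Type*} (g : ι → ℕ) (ρ : Finset ((ι →₀ ℕ) × (ι →₀ ℕ))) : Prop :=
  addConGen (fun a b => (a, b) ∈ ρ) = AddCon.ker (val g)

/-- least cardinality of a generating set of the kernel congruence of the family `g` -/
noncomputable def etaFam {ι : Type*} (g : ι → ℕ) : ℕ :=
  sInf {k | ∃ ρ : Finset ((ι →₀ ℕ) × (ι →₀ ℕ)), IsPres g ρ ∧ ρ.card = k}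

lemma etaFam_le {ι : Type*} {g : ι → ℕ} {ρ : Finset ((ι →₀ ℕ) × (ι →₀ ℕ))} (h : IsPres g ρ) :
    etaFam g ≤ ρ.card := Nat.sInf_le ⟨ρ, h, rfl⟩

/-- `η(S)`: the cardinality of a minimal presentation, i.e. the least cardinality of a generating
set of the congruence `ker φ`. -/
noncomputable def eta (S : AddSubmonoid ℕ) : ℕ := etaFam (fun x : minGens S => (x : ℕ))

/-- The Apéry set of `S` with respect to its multiplicity: the `x ∈ S` with `x - m ∉ S`. -/
def apery (S : AddSubmonoid ℕ) : Set ℕ := {x | x ∈ S ∧ ¬ ∃ y ∈ S, y + mult S = x}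

section basic
variable {ι : Type*} (g : ι → ℕ)

lemma val_single (i : ι) (k : ℕ) : val g (single i k) = k * g i := by
  simp [val]

lemma val_eq_sum (a : ι →₀ ℕ) : val g a = a.sum (fun i c => c * g i) := by
  simp [val, Finsupp.liftAddHom_apply]

lemma exists_split {a : ι →₀ ℕ} (ha : a ≠ 0) : ∃ i a', a = single i 1 + a' ∧ a i ≠ 0 := by
  classical
  obtain ⟨i, hi⟩ := Finsupp.ne_iff.1 ha
  refine ⟨i, a - single i 1, ?_, by simpa using hi⟩
  have : single i 1 ≤ a := by
    rw [Finsupp.single_le_iff]; simpa [Nat.one_le_iff_ne_zero] using hi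
  exact (add_tsub_cancel_of_le this).symm

lemma val_eq_zero (hg : ∀ i, g i ≠ 0) {a : ι →₀ ℕ} (h : val g a = 0) : a = 0 := by
  by_contra ha
  obtain ⟨i, a', rfl, -⟩ := exists_split ha
  rw [map_add, val_single] at h
  have := hg i
  omega

lemma mem_closure_range (x : ℕ) : x ∈ AddSubmonoid.closure (Set.range g) ↔ ∃ a, val g a = x := by
  constructor
  · intro h
    induction h using AddSubmonoid.closure_induction with
    | mem x hx => obtain ⟨i, rfl⟩ := hx; exact ⟨single i 1, by simp [val_single]⟩
    | zero => exact ⟨0, map_zero _⟩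
    | add x y _ _ hx hy =>
      obtain ⟨a, rfl⟩ := hx
      obtain ⟨b, rfl⟩ := hy
      exact ⟨a + b, map_add _ _ _⟩
  · rintro ⟨a, rfl⟩
    rw [val_eq_sum]
    refine AddSubmonoid.sum_mem _ fun i _ => ?_
    have := AddSubmonoid.nsmul_mem _ (AddSubmonoid.subset_closure (Set.mem_range_self (f := g) i)) (a i)
    simpa using this

end basic

/-! ### Transport of `etaFam` along a bijection of the index set -/

section transport

lemma val_domCongr {ι κ : Type*} (e : ι ≃ κ) (h : κ → ℕ) (a : ι →₀ ℕ) :
    val h (Finsupp.domCongr e a) = val (h ∘ e) a := by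
  induction a using Finsupp.induction_linear with
  | zero => simp
  | add f g hf hg => simp only [map_add, hf, hg]
  | single i k => simp [val_single]

lemma isPres_transport {ι κ : Type*} (e : ι ≃ κ) (h : κ → ℕ)
    (ρ : Finset ((κ →₀ ℕ) × (κ →₀ ℕ))) (hρ : IsPres h ρ) :
    ∃ ρ' : Finset ((ι →₀ ℕ) × (ι →₀ ℕ)), IsPres (h ∘ e) ρ' ∧ ρ'.card = ρ.card := by
  classical
  set E : (ι →₀ ℕ) ≃+ (κ →₀ ℕ) := Finsupp.domCongr e with hE
  have hval : ∀ a, val h (E a) = val (h ∘ e) a := fun a => val_domCongr e h a
  refine ⟨ρ.map ⟨fun p => (E.symm p.1, E.symm p.2), ?_⟩, ?_, Finset.card_map _⟩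
  · intro p q hpq
    simp only [Prod.mk.injEq, EmbeddingLike.apply_eq_iff_eq] at hpq
    exact Prod.ext hpq.1 hpq.2
  · unfold IsPres at hρ ⊢
    apply le_antisymm
    · rw [AddCon.addConGen_le]
      intro a b hab
      rw [Finset.mem_map] at hab
      obtain ⟨p, hp, hpq⟩ := hab
      have ha : E.symm p.1 = a := congrArg Prod.fst hpq
      have hb : E.symm p.2 = b := congrArg Prod.snd hpq
      subst ha hb
      have h1 : AddCon.ker (val h) p.1 p.2 := by
        rw [← hρ]; exact AddConGen.Rel.of _ _ hp
      rw [AddCon.ker_rel] at h1 ⊢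
      rw [← hval, ← hval]
      simpa using h1
    · intro a b hab
      rw [AddCon.ker_rel, ← hval, ← hval] at hab
      have h1 : addConGen (fun a b => (a, b) ∈ ρ) (E a) (E b) := by
        rw [hρ]; exact hab
      set C := addConGen (fun a b => (a, b) ∈ ρ.map
        ⟨fun p => (E.symm p.1, E.symm p.2), by
          intro p q hpq
          simp only [Prod.mk.injEq, EmbeddingLike.apply_eq_iff_eq] at hpq
          exact Prod.ext hpq.1 hpq.2⟩) with hC
      have h2 : addConGen (fun a b => (a, b) ∈ ρ) ≤ AddCon.comap E.symm (map_add E.symm) C := by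
        rw [AddCon.addConGen_le]
        intro x y hxy
        rw [AddCon.comap_rel]
        exact AddConGen.Rel.of _ _ (Finset.mem_map.2 ⟨(x, y), hxy, rfl⟩)
      have h3 := h2 h1
      rw [AddCon.comap_rel] at h3
      simpa using h3

lemma etaFam_comp {ι κ : Type*} (e : ι ≃ κ) (h : κ → ℕ) : etaFam (h ∘ e) = etaFam h := by
  unfold etaFam
  congr 1
  ext k
  constructor
  · rintro ⟨ρ, hρ, rfl⟩
    obtain ⟨ρ', h1, h2⟩ := isPres_transport e.symm (h ∘ e) ρ hρ
    refine ⟨ρ', ?_, h2⟩
    have : (h ∘ e) ∘ e.symm = h := by ext; simp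
    rwa [this] at h1
  · rintro ⟨ρ, hρ, rfl⟩
    exact isPres_transport e h ρ hρ

end transport

/-! ### Tie-breaking weights -/

lemma exists_weights {ι : Type*} [Fintype ι] (M : ℕ) :
    ∃ W : ι → ℕ, ∀ a b : ι →₀ ℕ, (∀ i, a i ≤ M) → (∀ i, b i ≤ M) →
      val W a = val W b → a = b := by
  classical
  have key : ∀ s : Finset ι, ∃ W : ι → ℕ, ∀ a b : ι →₀ ℕ, (∀ i, a i ≤ M) → (∀ i, b i ≤ M) →
      ∑ i ∈ s, a i * W i = ∑ i ∈ s, b i * W i → ∀ i ∈ s, a i = b i := by
    intro s
    induction s using Finset.induction_on with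
    | empty => exact ⟨fun _ => 0, fun a b _ _ _ i hi => absurd hi (Finset.notMem_empty i)⟩
    | insert j s hj ih =>
      obtain ⟨W, hW⟩ := ih
      set B := ∑ i ∈ s, M * W i + 1 with hB
      refine ⟨fun i => if i = j then B else W i, fun a b ha hb hab => ?_⟩
      have hs : ∀ c : ι →₀ ℕ, ∑ i ∈ s, c i * (if i = j then B else W i) = ∑ i ∈ s, c i * W i := by
        intro c
        refine Finset.sum_congr rfl fun i hi => ?_
        rw [if_neg]
        rintro rfl
        exact hj hi
      have hlt : ∀ c : ι →₀ ℕ, (∀ i, c i ≤ M) → ∑ i ∈ s, c i * W i < B := by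
        intro c hc
        rw [hB, Nat.lt_succ_iff]
        exact Finset.sum_le_sum fun i _ => Nat.mul_le_mul_right _ (hc i)
      rw [Finset.sum_insert hj, Finset.sum_insert hj, hs, hs] at hab
      simp only [if_true] at hab
      have h1 := hlt a ha
      have h2 := hlt b hb
      have hB0 : 0 < B := by omega
      have e1 : (a j * B + ∑ i ∈ s, a i * W i) / B = a j := by
        rw [Nat.mul_comm, Nat.mul_add_div hB0, Nat.div_eq_of_lt h1, Nat.add_zero]
      have e2 : (b j * B + ∑ i ∈ s, b i * W i) / B = b j := by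
        rw [Nat.mul_comm, Nat.mul_add_div hB0, Nat.div_eq_of_lt h2, Nat.add_zero]
      have hj' : a j = b j := by rw [← e1, ← e2, hab]
      have hs' : ∑ i ∈ s, a i * W i = ∑ i ∈ s, b i * W i := by
        rw [hj'] at hab; omega
      intro i hi
      rcases Finset.mem_insert.1 hi with rfl | hi
      · exact hj'
      · exact hW a b ha hb hs' i hi
  obtain ⟨W, hW⟩ := key Finset.univ
  refine ⟨W, fun a b ha hb hab => ?_⟩
  ext i
  refine hW a b ha hb ?_ i (Finset.mem_univ i)
  rw [val_eq_sum, val_eq_sum, Finsupp.sum_fintype _ _ (by simp),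
    Finsupp.sum_fintype _ _ (by simp)] at hab
  exact hab

lemma val_le_of_bound {ι : Type*} [Fintype ι] (W : ι → ℕ) (M : ℕ) (a : ι →₀ ℕ)
    (ha : ∀ i, a i ≤ M) : val W a ≤ ∑ i, M * W i := by
  rw [val_eq_sum, Finsupp.sum_fintype _ _ (by simp)]
  exact Finset.sum_le_sum fun i _ => Nat.mul_le_mul_right _ (ha i)

/-! ### The core argument -/

section core

variable {ι : Type*} [Fintype ι] [DecidableEq ι]

/-- the set of monomials of least `v`-value in their residue class -/
def Del (g v : ι → ℕ) (m : ℕ) : Set (ι →₀ ℕ) :=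
  {a | ∀ b, val g b ≡ val g a [MOD m] → val v a ≤ val v b}

/-- minimal monomials outside `Del` in which the variable `i₀` does not occur -/
def Cor (g v : ι → ℕ) (m : ℕ) (i₀ : ι) : Set (ι →₀ ℕ) :=
  {a | a i₀ = 0 ∧ a ∉ Del g v m ∧ ∀ b, b ≤ a → b ≠ a → b ∈ Del g v m}

structure Setup (g v : ι → ℕ) (m : ℕ) (i₀ : ι) : Prop where
  m0 : 0 < m
  g0 : g i₀ = m
  v0 : v i₀ = m
  vpos : ∀ i, v i ≠ 0
  mod : ∀ i, v i ≡ g i [MOD m]
  /-- two monomials with exponents at most `m`, in the same residue class, of the same `v` value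
  and without `i₀` are equal -/
  inj : ∀ a b : ι →₀ ℕ, (∀ i, a i ≤ m) → (∀ i, b i ≤ m) → a i₀ = 0 → b i₀ = 0 →
    val v a = val v b → a = b
  /-- `v` refines `g` -/
  ref : ∀ a b : ι →₀ ℕ, (∀ i, a i ≤ m) → (∀ i, b i ≤ m) → a i₀ = 0 → b i₀ = 0 →
    val v a ≤ val v b → val g a ≤ val g b

variable {g v : ι → ℕ} {m : ℕ} {i₀ : ι}

lemma Setup.val_mod (H : Setup g v m i₀) (a : ι →₀ ℕ) : val v a ≡ val g a [MOD m] := by
  induction a using Finsupp.induction_linear with
  | zero => simp [Nat.ModEq.refl]
  | add f h hf hg => rw [map_add, map_add]; exact hf.add hg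
  | single i k => rw [val_single, val_single]; exact (H.mod i).mul_left _

lemma Setup.del_down (_H : Setup g v m i₀) {a b : ι →₀ ℕ} (ha : a ∈ Del g v m) (hb : b ≤ a) :
    b ∈ Del g v m := by
  intro c hc
  obtain ⟨d, rfl⟩ := exists_add_of_le hb
  have h1 := ha (c + d) (by rw [map_add, map_add]; exact hc.add_right _)
  rw [map_add, map_add] at h1
  omega

lemma Setup.del_zero (H : Setup g v m i₀) {a : ι →₀ ℕ} (ha : a ∈ Del g v m)
    (h0 : val g a ≡ 0 [MOD m]) : a = 0 := by
  apply val_eq_zero v H.vpos
  have := ha 0 (by rw [map_zero]; exact h0.symm)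
  rw [map_zero] at this
  omega

lemma Setup.del_lt (H : Setup g v m i₀) {a : ι →₀ ℕ} (ha : a ∈ Del g v m) (i : ι) : a i < m := by
  by_contra hi
  push Not at hi
  have h1 : single i m ≤ a := by rw [Finsupp.single_le_iff]; exact hi
  have h2 := H.del_zero (H.del_down ha h1) (by
    rw [val_single]
    exact (Nat.modEq_zero_iff_dvd.2 (dvd_mul_right m _)))
  have h3 := H.m0
  rw [Finsupp.single_eq_zero] at h2
  omega

lemma Setup.del_i0 (H : Setup g v m i₀) {a : ι →₀ ℕ} (ha : a ∈ Del g v m) : a i₀ = 0 := by
  by_contra hi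
  have h1 : single i₀ 1 ≤ a := by
    rw [Finsupp.single_le_iff]; simpa [Nat.one_le_iff_ne_zero] using hi
  have h2 := H.del_zero (H.del_down ha h1) (by
    rw [val_single, H.g0, one_mul]
    exact (Nat.modEq_zero_iff_dvd.2 dvd_rfl))
  rw [Finsupp.single_eq_zero] at h2
  omega

lemma Setup.del_uniq (H : Setup g v m i₀) {a b : ι →₀ ℕ} (ha : a ∈ Del g v m)
    (hb : b ∈ Del g v m) (hab : val g a ≡ val g b [MOD m]) : a = b := by
  apply H.inj a b (fun i => (H.del_lt ha i).le) (fun i => (H.del_lt hb i).le)
    (H.del_i0 ha) (H.del_i0 hb)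
  exact le_antisymm (ha b hab.symm) (hb a hab)

lemma del_exists (g v : ι → ℕ) (m : ℕ) (a : ι →₀ ℕ) :
    ∃ b ∈ Del g v m, val g b ≡ val g a [MOD m] := by
  have hne : ({n | ∃ b, val g b ≡ val g a [MOD m] ∧ val v b = n} : Set ℕ).Nonempty :=
    ⟨_, a, Nat.ModEq.refl _, rfl⟩
  obtain ⟨b, hb, hbn⟩ := Nat.sInf_mem hne
  refine ⟨b, fun c hc => ?_, hb⟩
  rw [hbn]
  exact Nat.sInf_le ⟨c, hc.trans hb, rfl⟩

lemma Setup.cor_le (H : Setup g v m i₀) {a : ι →₀ ℕ} (ha : a ∈ Cor g v m i₀) (i : ι) :
    a i ≤ m := by
  by_contra hi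
  push Not at hi
  have h2 : a - single i 1 ≠ a := by
    intro h
    have := DFunLike.congr_fun h i
    simp at this
    omega
  have h1 := H.del_lt (ha.2.2 (a - single i 1) tsub_le_self h2) i
  simp at h1
  omega

lemma Setup.cor_finite (H : Setup g v m i₀) : (Cor g v m i₀).Finite := by
  apply (Set.finite_Icc (0 : ι →₀ ℕ) (Finsupp.equivFunOnFinite.symm (fun _ => m))).subset
  intro a ha
  refine ⟨fun i => Nat.zero_le _, fun i => ?_⟩
  simpa using H.cor_le ha i

lemma Setup.cor_ncard_le (H : Setup g v m i₀) :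
    (Cor g v m i₀).ncard ≤ (m + 1) ^ Fintype.card ι := by
  have h1 : Set.ncard (Set.range (fun f : ι → Fin (m + 1) =>
      (Finsupp.equivFunOnFinite.symm (fun i => (f i : ℕ)) : ι →₀ ℕ))) ≤
      (m + 1) ^ Fintype.card ι := by
    rw [← Set.image_univ]
    refine (Set.ncard_image_le Set.finite_univ).trans ?_
    rw [Set.ncard_univ]
    simp
  refine (Set.ncard_le_ncard ?_ (Set.finite_range _)).trans h1
  intro a ha
  refine ⟨fun i => ⟨a i, Nat.lt_succ_of_le (H.cor_le ha i)⟩, ?_⟩
  ext i
  simp

/-- below every monomial outside `Del` without `i₀` there is a corner -/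
lemma Setup.exists_cor (_H : Setup g v m i₀) :
    ∀ n : ℕ, ∀ a : ι →₀ ℕ, ∑ i, a i = n → a i₀ = 0 → a ∉ Del g v m →
      ∃ c ∈ Cor g v m i₀, c ≤ a := by
  intro n
  induction n using Nat.strong_induction_on with
  | _ n ih =>
    intro a han ha0 ha
    by_cases hc : ∀ b, b ≤ a → b ≠ a → b ∈ Del g v m
    · exact ⟨a, ⟨ha0, ha, hc⟩, le_rfl⟩
    · push Not at hc
      obtain ⟨b, hb, hba, hbD⟩ := hc
      have hlt : ∑ i, b i < n := by
        rw [← han]
        apply Finset.sum_lt_sum (fun i _ => hb i)
        by_contra hcon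
        push Not at hcon
        apply hba
        ext i
        exact le_antisymm (hb i) (hcon i (Finset.mem_univ i))
      have hb0 : b i₀ = 0 := by have := hb i₀; omega
      obtain ⟨c, hc, hcb⟩ := ih _ hlt b rfl hb0 hbD
      exact ⟨c, hc, hcb.trans hb⟩

/-- Corner relations generate the kernel of every compatible valuation `u`. -/
lemma Setup.pres_of (H : Setup g v m i₀) (u : ι → ℕ) (hu0 : u i₀ = m)
    (hmod : ∀ a, val u a ≡ val g a [MOD m])
    (hle : ∀ a ∈ Cor g v m i₀, ∀ b ∈ Del g v m, val g b ≡ val g a [MOD m] →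
      val u b ≤ val u a) :
    ∃ ρ : Finset ((ι →₀ ℕ) × (ι →₀ ℕ)), IsPres u ρ ∧ ρ.card ≤ (Cor g v m i₀).ncard := by
  -- normal forms of corners
  choose nf hnfD hnfM using del_exists g v m
  set rel : (ι →₀ ℕ) → (ι →₀ ℕ) × (ι →₀ ℕ) :=
    fun a => (a, nf a + single i₀ ((val u a - val u (nf a)) / m)) with hrel
  have hrelval : ∀ a ∈ Cor g v m i₀, val u (rel a).2 = val u (rel a).1 := by
    intro a ha
    have h1 := hle a ha (nf a) (hnfD a) (hnfM a)
    have h2 : val u (nf a) ≡ val u a [MOD m] :=
      ((hmod _).trans (hnfM a)).trans (hmod a).symm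
    have h3 : m ∣ val u a - val u (nf a) := (Nat.modEq_iff_dvd' h1).1 h2
    simp only [hrel, map_add, val_single, hu0]
    rw [Nat.div_mul_cancel h3]
    omega
  refine ⟨H.cor_finite.toFinset.image rel, ?_, ?_⟩
  · unfold IsPres
    set C := addConGen (fun a b => (a, b) ∈ H.cor_finite.toFinset.image rel) with hC
    have hCle : C ≤ AddCon.ker (val u) := by
      rw [hC, AddCon.addConGen_le]
      intro x y hxy
      rw [Finset.mem_image] at hxy
      obtain ⟨a, ha, hax⟩ := hxy
      rw [Set.Finite.mem_toFinset] at ha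
      have := hrelval a ha
      rw [hax] at this
      rw [AddCon.ker_rel]
      exact this.symm
    apply le_antisymm hCle
    -- every monomial without i₀ has a normal form
    have hN : ∀ n : ℕ, ∀ y : ι →₀ ℕ, val v y = n → y i₀ = 0 →
        ∃ b ∈ Del g v m, ∃ c : ℕ, C y (b + single i₀ c) := by
      intro n
      induction n using Nat.strong_induction_on with
      | _ n ih =>
        intro y hyn hy0
        by_cases hyD : y ∈ Del g v m
        · exact ⟨y, hyD, 0, by simpa using C.refl y⟩
        · obtain ⟨a, ha, hay⟩ := H.exists_cor _ y rfl hy0 hyD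
          obtain ⟨z, rfl⟩ := exists_add_of_le hay
          have hz0 : z i₀ = 0 := by
            have := hy0
            simp at this
            exact this.2
          have hstep : C (a + z) (nf a + single i₀ ((val u a - val u (nf a)) / m) + z) := by
            apply C.add _ (C.refl z)
            rw [hC]
            apply AddConGen.Rel.of
            rw [Finset.mem_image]
            exact ⟨a, by rw [Set.Finite.mem_toFinset]; exact ha, rfl⟩
          have hlt : val v (nf a) < val v a := by
            have h1 : ¬ (∀ b, val g b ≡ val g a [MOD m] → val v a ≤ val v b) := ha.2.1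
            push Not at h1
            obtain ⟨b, hb, hba⟩ := h1
            exact lt_of_le_of_lt (hnfD a b (hb.trans (hnfM a).symm)) hba
          have hlt' : val v (nf a + z) < n := by
            rw [← hyn, map_add, map_add]; omega
          obtain ⟨b, hbD, c, hc⟩ := ih _ hlt' (nf a + z) rfl (by
            simp [H.del_i0 (hnfD a), hz0])
          refine ⟨b, hbD, c + (val u a - val u (nf a)) / m, ?_⟩
          refine C.trans hstep ?_
          have e1 : nf a + single i₀ ((val u a - val u (nf a)) / m) + z =
            (nf a + z) + single i₀ ((val u a - val u (nf a)) / m) := by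
            rw [add_right_comm]
          have e2 : b + single i₀ (c + (val u a - val u (nf a)) / m) =
            (b + single i₀ c) + single i₀ ((val u a - val u (nf a)) / m) := by
            rw [Finsupp.single_add, add_assoc]
          rw [e1, e2]
          exact C.add hc (C.refl _)
    have hN' : ∀ x : ι →₀ ℕ, ∃ b ∈ Del g v m, ∃ c : ℕ, C x (b + single i₀ c) := by
      intro x
      set y := x.erase i₀ with hy
      have hx : x = y + single i₀ (x i₀) := by
        rw [hy, Finsupp.erase_add_single]
      obtain ⟨b, hb, c, hc⟩ := hN _ y rfl (by simp [hy])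
      refine ⟨b, hb, c + x i₀, ?_⟩
      rw [Finsupp.single_add, ← add_assoc]
      have := C.add hc (C.refl (single i₀ (x i₀)))
      rwa [← hx] at this
    intro x x' hxx
    rw [AddCon.ker_rel] at hxx
    obtain ⟨b, hb, c, hc⟩ := hN' x
    obtain ⟨b', hb', c', hc'⟩ := hN' x'
    have e1 : val u x = val u (b + single i₀ c) := by
      have := hCle hc; rwa [AddCon.ker_rel] at this
    have e2 : val u x' = val u (b' + single i₀ c') := by
      have := hCle hc'; rwa [AddCon.ker_rel] at this
    rw [map_add, val_single, hu0] at e1 e2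
    have e3 : val u b + c * m = val u b' + c' * m := by omega
    have e4 : val u b ≡ val u b' [MOD m] := by
      have h1 : val u b + c * m ≡ val u b [MOD m] := by
        simp [Nat.ModEq]
      have h2 : val u b' + c' * m ≡ val u b' [MOD m] := by
        simp [Nat.ModEq]
      rw [← e3] at h2
      exact h1.symm.trans h2
    have e5 : b = b' := H.del_uniq hb hb' (((hmod b).symm.trans e4).trans (hmod b'))
    subst e5
    have e6 : c * m = c' * m := by omega
    have e7 : c = c' := Nat.eq_of_mul_eq_mul_right H.m0 e6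
    subst e7
    exact C.trans hc (C.symm hc')
  · refine Finset.card_image_le.trans ?_
    rw [Set.ncard_eq_toFinset_card _ H.cor_finite]

/-- Lower bound: every presentation of `v` has at least as many relations as there are corners. -/
lemma Setup.lower (H : Setup g v m i₀) (ρ : Finset ((ι →₀ ℕ) × (ι →₀ ℕ))) (hρ : IsPres v ρ) :
    (Cor g v m i₀).ncard ≤ ρ.card := by
  unfold IsPres at hρ
  have hker : ∀ p ∈ ρ, val v p.1 = val v p.2 := by
    intro p hp
    have : AddCon.ker (val v) p.1 p.2 := by rw [← hρ]; exact AddConGen.Rel.of _ _ hp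
    rwa [AddCon.ker_rel] at this
  have hclaim : ∀ a ∈ Cor g v m i₀, ∃ p ∈ ρ, p.1 = a ∨ p.2 = a := by
    intro a ha
    by_contra hcon
    push Not at hcon
    -- the congruence: same value, and equal to `a` simultaneously
    have haux : ∀ x z y w : ι →₀ ℕ, val v x = val v y → (x = a ↔ y = a) → val v z = val v w →
        (z = a ↔ w = a) → x + z = a → y + w = a := by
      intro x z y w h1 h2 h3 h4 h5
      by_cases hx : x = a
      · have hz : z = 0 := by
          subst hx; simpa using h5
        subst hz
        have hw : w = 0 := val_eq_zero v H.vpos (by rw [← h3, map_zero])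
        rw [hw, add_zero]
        exact h2.1 hx
      · by_cases hz : z = a
        · have hx0 : x = 0 := by
            subst hz; simpa using h5
          subst hx0
          have hy : y = 0 := val_eq_zero v H.vpos (by rw [← h1, map_zero])
          rw [hy, zero_add]
          exact h4.1 hz
        · have hxD : x ∈ Del g v m := ha.2.2 x (by rw [← h5]; exact le_self_add) hx
          have hzD : z ∈ Del g v m := ha.2.2 z (by rw [← h5]; exact le_add_self) hz
          have hyx : y = x := by
            have hm : val g x ≡ val g y [MOD m] :=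
              ((H.val_mod x).symm.trans (by rw [h1])).trans (H.val_mod y)
            have hyD : y ∈ Del g v m := by
              intro c hc
              rw [← h1]
              exact hxD c (hc.trans hm.symm)
            exact (H.del_uniq hxD hyD hm).symm
          have hwz : w = z := by
            have hm : val g z ≡ val g w [MOD m] :=
              ((H.val_mod z).symm.trans (by rw [h3])).trans (H.val_mod w)
            have hwD : w ∈ Del g v m := by
              intro c hc
              rw [← h3]
              exact hzD c (hc.trans hm.symm)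
            exact (H.del_uniq hzD hwD hm).symm
          rw [hyx, hwz, h5]
    let D : AddCon (ι →₀ ℕ) :=
      { r := fun x y => val v x = val v y ∧ (x = a ↔ y = a)
        iseqv := ⟨fun x => ⟨rfl, Iff.rfl⟩, fun h => ⟨h.1.symm, h.2.symm⟩,
          fun h h' => ⟨h.1.trans h'.1, h.2.trans h'.2⟩⟩
        add' := by
          rintro x y z w ⟨h1, h2⟩ ⟨h3, h4⟩
          refine ⟨by rw [map_add, map_add, h1, h3], ?_, ?_⟩
          · exact haux x z y w h1 h2 h3 h4
          · exact haux y w x z h1.symm h2.symm h3.symm h4.symm }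
    have hD : AddCon.ker (val v) ≤ D := by
      rw [← hρ, AddCon.addConGen_le]
      intro x y hxy
      have h1 := hcon _ hxy
      exact ⟨hker _ hxy, iff_of_false h1.1 h1.2⟩
    obtain ⟨b, hb, hbm⟩ := del_exists g v m a
    have hba : val v b ≤ val v a := hb a hbm.symm
    have h2 : val v b ≡ val v a [MOD m] :=
      ((H.val_mod _).trans hbm).trans (H.val_mod a).symm
    have h3 : m ∣ val v a - val v b := (Nat.modEq_iff_dvd' hba).1 h2
    obtain ⟨k, hk⟩ := h3
    have h4 : AddCon.ker (val v) a (b + single i₀ k) := by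
      rw [AddCon.ker_rel, map_add, val_single, H.v0]
      rw [Nat.mul_comm k m]
      omega
    have h5 : (a = a ↔ b + single i₀ k = a) := (hD h4).2
    have h6 := h5.1 rfl
    have h7 : k = 0 := by
      have h8 := ha.1
      rw [← h6] at h8
      simp at h8
      exact h8.2
    rw [h7] at h6
    simp at h6
    exact ha.2.1 (h6 ▸ hb)
  choose! f hf hf' using hclaim
  rw [← Set.ncard_coe_finset]
  refine Set.ncard_le_ncard_of_injOn f (fun a ha => by simpa using hf a ha) ?_
  intro a ha b hb hab
  have hval : val v a = val v b := by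
    have h1 := hf' a ha
    have h2 := hf' b hb
    have h3 := hker _ (hf a ha)
    rw [← hab] at h2
    rcases h1 with h1 | h1 <;> rcases h2 with h2 | h2 <;> rw [← h1, ← h2]
    · exact h3
    · exact h3.symm
  exact H.inj a b (H.cor_le ha) (H.cor_le hb) ha.1 hb.1 hval

/-- `η` of the perturbed family is at least `η` of the original one. -/
lemma Setup.eta_le (H : Setup g v m i₀) : etaFam g ≤ etaFam v := by
  obtain ⟨ρ₁, h1, h1'⟩ := H.pres_of g H.g0 (fun a => Nat.ModEq.refl _) (by
    intro a ha b hb hab
    exact H.ref b a (fun i => (H.del_lt hb i).le) (H.cor_le ha) (H.del_i0 hb) ha.1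
      (hb a hab.symm))
  obtain ⟨ρ₂, h2, h2'⟩ := H.pres_of v H.v0 H.val_mod (by
    intro a ha b hb hab
    exact hb a hab.symm)
  have h3 : etaFam g ≤ (Cor g v m i₀).ncard := (etaFam_le h1).trans h1'
  have hne : ({k | ∃ ρ : Finset ((ι →₀ ℕ) × (ι →₀ ℕ)), IsPres v ρ ∧ ρ.card = k} : Set ℕ).Nonempty :=
    ⟨_, ρ₂, h2, rfl⟩
  obtain ⟨ρ, hρ, hρ'⟩ := Nat.sInf_mem hne
  have h4 := H.lower ρ hρ
  unfold etaFam at h3 ⊢
  omega

lemma Setup.eta_bound (H : Setup g v m i₀) : etaFam g ≤ (m + 1) ^ Fintype.card ι := by
  obtain ⟨ρ₁, h1, h1'⟩ := H.pres_of g H.g0 (fun a => Nat.ModEq.refl _) (by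
    intro a ha b hb hab
    exact H.ref b a (fun i => (H.del_lt hb i).le) (H.cor_le ha) (H.del_i0 hb) ha.1
      (hb a hab.symm))
  exact ((etaFam_le h1).trans h1').trans H.cor_ncard_le

end core

/-! ### Families of atoms -/

section fam

variable {ι : Type*} {v : ι → ℕ}

lemma minGens_closure (vpos : ∀ i, v i ≠ 0)
    (hat : ∀ i (a : ι →₀ ℕ), val v a = v i → a = single i 1) :
    minGens (AddSubmonoid.closure (Set.range v)) = Set.range v := by
  classical
  ext x
  constructor
  · rintro ⟨hx, hx0, hx1⟩
    rw [mem_closure_range] at hx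
    obtain ⟨a, rfl⟩ := hx
    have ha : a ≠ 0 := by rintro rfl; exact hx0 (map_zero _)
    obtain ⟨i, a', rfl, -⟩ := exists_split ha
    have h1 := hx1 (v i) (AddSubmonoid.subset_closure ⟨i, rfl⟩) (val v a')
      ((mem_closure_range v _).2 ⟨a', rfl⟩) (by rw [map_add, val_single, one_mul])
    rcases h1 with h1 | h1
    · exact absurd h1 (vpos i)
    · refine ⟨i, ?_⟩
      rw [map_add, val_single, one_mul, h1, add_zero]
  · rintro ⟨i, rfl⟩
    refine ⟨AddSubmonoid.subset_closure ⟨i, rfl⟩, vpos i, ?_⟩
    intro y hy z hz hyz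
    rw [mem_closure_range] at hy hz
    obtain ⟨a, rfl⟩ := hy
    obtain ⟨b, rfl⟩ := hz
    rw [← map_add] at hyz
    have h1 := hat i (a + b) hyz
    by_cases hai : a i = 0
    · left
      have : a = 0 := by
        ext j
        have h2 := DFunLike.congr_fun h1 j
        by_cases hj : j = i
        · subst hj; exact hai
        · rw [Finsupp.add_apply, Finsupp.single_eq_of_ne (by tauto)] at h2
          rw [Finsupp.coe_zero, Pi.zero_apply]
          omega
      rw [this, map_zero]
    · right
      have : b = 0 := by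
        ext j
        have h2 := DFunLike.congr_fun h1 j
        by_cases hj : j = i
        · subst hj
          rw [Finsupp.add_apply, Finsupp.single_eq_same] at h2
          rw [Finsupp.coe_zero, Pi.zero_apply]
          omega
        · rw [Finsupp.add_apply, Finsupp.single_eq_of_ne (by tauto)] at h2
          rw [Finsupp.coe_zero, Pi.zero_apply]
          omega
      rw [this, map_zero]

lemma atoms_inj (hat : ∀ i (a : ι →₀ ℕ), val v a = v i → a = single i 1) :
    Function.Injective v := by
  intro i j hij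
  have := hat i (single j 1) (by rw [val_single, one_mul, hij])
  have h2 := (Finsupp.single_left_inj (one_ne_zero : (1:ℕ) ≠ 0)).1 this
  exact h2.symm

end fam

/-! ### Semigroups -/

section sgp

variable {S : AddSubmonoid ℕ}

lemma closure_minGens (S : AddSubmonoid ℕ) : AddSubmonoid.closure (minGens S) = S := by
  apply le_antisymm
  · rw [AddSubmonoid.closure_le]; exact fun x hx => hx.1
  · intro x
    induction x using Nat.strong_induction_on with
    | _ x ih =>
      intro hx
      by_cases h0 : x = 0
      · subst h0; exact zero_mem _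
      by_cases hm : x ∈ minGens S
      · exact AddSubmonoid.subset_closure hm
      · have h1 : ¬ (∀ y ∈ S, ∀ z ∈ S, y + z = x → y = 0 ∨ z = 0) := fun h => hm ⟨hx, h0, h⟩
        push Not at h1
        obtain ⟨y, hy, z, hz, hyz, hy0, hz0⟩ := h1
        rw [← hyz]
        exact add_mem (ih y (by omega) hy) (ih z (by omega) hz)

lemma exists_ne_zero (h : IsNumSgp S) : ∃ x, x ∈ S ∧ x ≠ 0 := by
  by_contra hcon
  push Not at hcon
  have : (S : Set ℕ)ᶜ = {0}ᶜ := by
    ext x
    simp only [Set.mem_compl_iff, SetLike.mem_coe, Set.mem_singleton_iff]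
    constructor
    · rintro h1 rfl; exact h1 (zero_mem _)
    · intro h1 h2; exact h1 (hcon x h2)
  unfold IsNumSgp at h
  rw [this] at h
  exact (Set.finite_singleton (0:ℕ)).infinite_compl h

lemma mult_mem (h : IsNumSgp S) : mult S ∈ S ∧ mult S ≠ 0 :=
  Nat.sInf_mem (s := {x | x ∈ S ∧ x ≠ 0}) (exists_ne_zero h)

lemma mult_le {x : ℕ} (hx : x ∈ S) (h0 : x ≠ 0) : mult S ≤ x :=
  Nat.sInf_le (s := {x | x ∈ S ∧ x ≠ 0}) ⟨hx, h0⟩

lemma mult_mem_minGens (h : IsNumSgp S) : mult S ∈ minGens S := by
  refine ⟨(mult_mem h).1, (mult_mem h).2, ?_⟩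
  intro y hy z hz hyz
  by_contra hcon
  push Not at hcon
  have h1 := mult_le hy hcon.1
  have h2 := mult_le hz hcon.2
  have h3 := (mult_mem h).2
  omega

lemma mem_iff_val (x : ℕ) : x ∈ S ↔ ∃ a, val (fun x : minGens S => (x : ℕ)) a = x := by
  rw [← mem_closure_range, Subtype.range_coe, closure_minGens]

lemma gens_pos (i : minGens S) : (i : ℕ) ≠ 0 := i.2.2.1

lemma gens_atoms (i : minGens S) (a : minGens S →₀ ℕ)
    (h : val (fun x : minGens S => (x : ℕ)) a = i) : a = single i 1 := by
  have ha : a ≠ 0 := by rintro rfl; rw [map_zero] at h; exact gens_pos i h.symm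
  obtain ⟨j, a', rfl, -⟩ := exists_split ha
  rw [map_add, val_single, one_mul] at h
  rcases i.2.2.2 j j.2.1 _ ((mem_iff_val _).2 ⟨a', rfl⟩) h with h1 | h1
  · exact absurd h1 (gens_pos j)
  · have h2 : a' = 0 := val_eq_zero _ gens_pos h1
    subst h2
    rw [map_zero, add_zero] at h
    rw [add_zero, Subtype.ext h]

lemma residues (h : IsNumSgp S) (m : ℕ) (hm : 0 < m) (r : ℕ) :
    ∃ a, val (fun x : minGens S => (x : ℕ)) a ≡ r [MOD m] := by
  have hinf : (Set.range (fun k : ℕ => r + m * k)).Infinite := by
    apply Set.infinite_range_of_injective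
    intro a b hab
    simp only at hab
    exact Nat.eq_of_mul_eq_mul_left hm (by omega)
  obtain ⟨x, ⟨k, rfl⟩, hx⟩ := (hinf.sdiff h).nonempty
  rw [Set.mem_compl_iff, not_not, SetLike.mem_coe, mem_iff_val] at hx
  obtain ⟨a, ha⟩ := hx
  refine ⟨a, ?_⟩
  rw [ha]
  simp [Nat.ModEq]

/-- The perturbation: for every numerical semigroup `S` there is one with the same embedding
dimension and multiplicity, at least as large `η`, and unique factorization in the Apéry set. -/
theorem perturb (S : AddSubmonoid ℕ) (hS : IsNumSgp S) (he : 0 < embDim S) :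
    eta S ≤ (mult S + 1) ^ embDim S ∧
    ∃ S' : AddSubmonoid ℕ, IsNumSgp S' ∧ embDim S' = embDim S ∧ mult S' = mult S ∧
      eta S ≤ eta S' ∧ ∀ x ∈ apery S', ∃! a : Fac S', phi S' a = x := by
  classical
  have hfin : (minGens S).Finite := Set.finite_of_ncard_pos he
  have : Fintype (minGens S) := hfin.fintype
  set g : minGens S → ℕ := fun x => (x : ℕ) with hg
  set m := mult S with hm
  have hm0 : 0 < m := Nat.pos_of_ne_zero (mult_mem hS).2
  set i₀ : minGens S := ⟨m, mult_mem_minGens hS⟩ with hi₀
  have hgi : ∀ i, i ≠ i₀ → m < g i := by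
    intro i hi
    have h1 : m ≤ g i := mult_le i.2.1 (gens_pos i)
    rcases h1.lt_or_eq with h2 | h2
    · exact h2
    · exact absurd (Subtype.ext h2.symm) hi
  have hgpos : ∀ i, g i ≠ 0 := gens_pos
  have hatg : ∀ i (a : minGens S →₀ ℕ), val g a = g i → a = single i 1 := gens_atoms
  obtain ⟨W, hW⟩ := exists_weights (ι := minGens S) m
  set B := ∑ i, m * W i with hB
  have hWB : ∀ i, W i ≤ B := by
    intro i
    have h1 : m * W i ≤ B := Finset.single_le_sum (f := fun i => m * W i)
      (fun _ _ => Nat.zero_le _) (Finset.mem_univ i)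
    have h2 : W i ≤ m * W i := Nat.le_mul_of_pos_left _ hm0
    omega
  set N := m * (B + 1) + 1 with hN
  have hNB : ∀ y, y ≤ B → m * y < N := by
    intro y hy
    have : m * y ≤ m * (B + 1) := Nat.mul_le_mul_left _ (by omega)
    omega
  set v : minGens S → ℕ := fun i => if i = i₀ then m else N * g i + m * W i with hv
  have hv0 : v i₀ = m := if_pos rfl
  have hvi : ∀ i, i ≠ i₀ → v i = N * g i + m * W i := fun i hi => if_neg hi
  have hvm : ∀ i, i ≠ i₀ → m < v i := by
    intro i hi
    rw [hvi i hi]
    have h1 := hgi i hi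
    have h2 : g i ≤ N * g i := Nat.le_mul_of_pos_left _ (by omega)
    omega
  have hvpos : ∀ i, v i ≠ 0 := by
    intro i
    by_cases hi : i = i₀
    · rw [hi, hv0]; omega
    · have := hvm i hi; omega
  have hform : ∀ a : minGens S →₀ ℕ, a i₀ = 0 → val v a = N * val g a + m * val W a := by
    intro a ha
    rw [val_eq_sum, val_eq_sum, val_eq_sum, Finsupp.sum_fintype _ _ (by simp),
      Finsupp.sum_fintype _ _ (by simp), Finsupp.sum_fintype _ _ (by simp),
      Finset.mul_sum, Finset.mul_sum, ← Finset.sum_add_distrib]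
    refine Finset.sum_congr rfl fun i _ => ?_
    by_cases hi : i = i₀
    · rw [hi, ha]; simp
    · rw [hvi i hi]; ring
  have H : Setup g v m i₀ :=
    { m0 := hm0
      g0 := rfl
      v0 := hv0
      vpos := hvpos
      mod := by
        intro i
        by_cases hi : i = i₀
        · rw [hi, hv0]
        · rw [hvi i hi]
          have : N * g i + m * W i = g i + m * ((B + 1) * g i + W i) := by
            rw [hN]; ring
          rw [this]
          simp [Nat.ModEq]
      inj := by
        intro a b ha hb ha0 hb0 hab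
        rw [hform a ha0, hform b hb0] at hab
        have h1 := hNB _ (val_le_of_bound W m a ha)
        have h2 := hNB _ (val_le_of_bound W m b hb)
        have hN0 : 0 < N := by omega
        have e1 : (N * val g a + m * val W a) / N = val g a := by
          rw [Nat.mul_add_div hN0, Nat.div_eq_of_lt h1, Nat.add_zero]
        have e2 : (N * val g b + m * val W b) / N = val g b := by
          rw [Nat.mul_add_div hN0, Nat.div_eq_of_lt h2, Nat.add_zero]
        have e3 : val g a = val g b := by rw [← e1, ← e2, hab]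
        rw [e3] at hab
        exact hW a b ha hb (Nat.eq_of_mul_eq_mul_left hm0 (by omega))
      ref := by
        intro a b ha hb ha0 hb0 hab
        rw [hform a ha0, hform b hb0] at hab
        have h2 := hNB _ (val_le_of_bound W m b hb)
        by_contra hcon
        push Not at hcon
        have h3 : N * (val g b + 1) ≤ N * val g a := Nat.mul_le_mul_left _ hcon
        rw [Nat.mul_add, Nat.mul_one] at h3
        omega }
  -- the single variables are in `Del`
  have hdel : ∀ i, i ≠ i₀ → single i 1 ∈ Del g v m := by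
    intro i hi b hb
    rw [val_single, one_mul] at hb ⊢
    set y := b.erase i₀ with hy
    have hbx : b = y + single i₀ (b i₀) := by rw [hy, Finsupp.erase_add_single]
    have hy0 : y i₀ = 0 := by simp [hy]
    have hgy : val g y ≡ g i [MOD m] := by
      rw [hbx, map_add, val_single] at hb
      have : val g y + b i₀ * g i₀ ≡ val g y [MOD m] := by
        have : g i₀ = m := rfl
        rw [this]; simp [Nat.ModEq]
      exact this.symm.trans hb
    have hle : v i ≤ val v y := by
      have h1 : g i ≤ val g y := by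
        by_contra hcon
        push Not at hcon
        obtain ⟨k, hk⟩ := (Nat.modEq_iff_dvd' hcon.le).1 hgy
        have h2 : val g (y + single i₀ k) = g i := by
          rw [map_add, val_single]
          have : g i₀ = m := rfl
          rw [this, Nat.mul_comm k m]; omega
        have h3 := hatg i _ h2
        have h4 := DFunLike.congr_fun h3 i₀
        rw [Finsupp.add_apply, Finsupp.single_eq_same, Finsupp.single_eq_of_ne (by tauto),
          hy0] at h4
        have h5 : k = 0 := by omega
        subst h5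
        omega
      rcases h1.lt_or_eq with h2 | h2
      · rw [hform y hy0, hvi i hi]
        have h3 := hNB _ (hWB i)
        have h4 : N * (g i + 1) ≤ N * val g y := Nat.mul_le_mul_left _ h2
        rw [Nat.mul_add, Nat.mul_one] at h4
        omega
      · rw [hatg i y h2.symm, val_single, one_mul]
    rw [hbx, map_add]
    omega
  have hatv : ∀ i (a : minGens S →₀ ℕ), val v a = v i → a = single i 1 := by
    intro i a ha
    by_cases hi : i = i₀
    · subst hi
      have ha0 : a ≠ 0 := by rintro rfl; rw [map_zero] at ha; exact hvpos _ ha.symm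
      obtain ⟨j, a', rfl, -⟩ := exists_split ha0
      rw [map_add, val_single, one_mul, hv0] at ha
      by_cases hj : j = i₀
      · rw [hj, hv0] at ha
        have : a' = 0 := val_eq_zero v hvpos (by omega)
        rw [this, hj, add_zero]
      · have := hvm j hj; omega
    · have h1 := hdel i hi
      have h2 : val g (single i 1) ≡ val g a [MOD m] := by
        rw [val_single, one_mul]
        exact ((H.mod i).symm.trans (by rw [ha])).trans (H.val_mod a)
      have h3 : a ∈ Del g v m := by
        intro c hc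
        rw [ha]
        have := h1 c (hc.trans h2.symm)
        rwa [val_single, one_mul] at this
      exact (H.del_uniq h1 h3 h2).symm
  have hcard : Fintype.card (minGens S) = embDim S := by
    unfold embDim
    rw [← Nat.card_coe_set_eq, Nat.card_eq_fintype_card]
  have hmult : mult (AddSubmonoid.closure (Set.range v)) = m := by
    apply le_antisymm
    · exact mult_le (AddSubmonoid.subset_closure ⟨i₀, hv0⟩) (by omega)
    · refine le_csInf ⟨m, AddSubmonoid.subset_closure ⟨i₀, hv0⟩, by omega⟩ ?_
      rintro x ⟨hx, hx0⟩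
      rw [mem_closure_range] at hx
      obtain ⟨a, rfl⟩ := hx
      have ha : a ≠ 0 := by rintro rfl; exact hx0 (map_zero _)
      obtain ⟨j, a', rfl, -⟩ := exists_split ha
      rw [map_add, val_single, one_mul]
      by_cases hj : j = i₀
      · rw [hj, hv0]; omega
      · have := hvm j hj; omega
  have hgens : minGens (AddSubmonoid.closure (Set.range v)) = Set.range v :=
    minGens_closure hvpos hatv
  let e : minGens S ≃ minGens (AddSubmonoid.closure (Set.range v)) :=
    (Equiv.ofInjective v (atoms_inj hatv)).trans (Equiv.setCongr hgens.symm)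
  have hcomp : (fun x : minGens (AddSubmonoid.closure (Set.range v)) => (x : ℕ)) ∘ e = v := by
    ext i
    rfl
  refine ⟨?_, AddSubmonoid.closure (Set.range v), ?_, ?_, ?_, ?_, ?_⟩
  · have := H.eta_bound
    rw [hcard] at this
    exact this
  · -- finite complement
    choose a ha using residues hS m hm0
    unfold IsNumSgp
    apply (Set.finite_Iio (∑ r ∈ Finset.range m, val v (a r))).subset
    intro x hx
    rw [Set.mem_Iio]
    by_contra hcon
    push Not at hcon
    apply hx
    have h1 : val v (a (x % m)) ≤ ∑ r ∈ Finset.range m, val v (a r) :=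
      Finset.single_le_sum (f := fun r => val v (a r)) (fun _ _ => Nat.zero_le _)
        (Finset.mem_range.2 (Nat.mod_lt _ hm0))
    have h2 : val v (a (x % m)) ≡ x [MOD m] :=
      ((H.val_mod _).trans (ha _)).trans (Nat.mod_modEq x m)
    obtain ⟨k, hk⟩ := (Nat.modEq_iff_dvd' (h1.trans hcon)).1 h2
    rw [SetLike.mem_coe, mem_closure_range]
    refine ⟨a (x % m) + single i₀ k, ?_⟩
    rw [map_add, val_single, hv0, Nat.mul_comm k m]
    omega
  · unfold embDim
    rw [minGens_closure hvpos hatv, ← Nat.card_coe_set_eq, Nat.card_range_of_injective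
      (atoms_inj hatv), Nat.card_coe_set_eq]
  · exact hmult
  · unfold eta
    rw [← etaFam_comp e, hcomp]
    exact H.eta_le
  · rintro x ⟨hx, hxm⟩
    rw [hmult] at hxm
    -- monomials of value `x` lie in `Del`
    have hD : ∀ a : minGens S →₀ ℕ, val v a = x → a ∈ Del g v m := by
      intro a ha b hb
      by_contra hcon
      push Not at hcon
      have h2 : val v b ≡ val v a [MOD m] :=
        ((H.val_mod _).trans hb).trans (H.val_mod a).symm
      obtain ⟨k, hk⟩ := (Nat.modEq_iff_dvd' hcon.le).1 h2
      have hk0 : k ≠ 0 := by rintro rfl; omega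
      obtain ⟨k', rfl⟩ := Nat.exists_eq_succ_of_ne_zero hk0
      apply hxm
      refine ⟨val v (b + single i₀ k'), (mem_closure_range v _).2 ⟨_, rfl⟩, ?_⟩
      rw [map_add, val_single, hv0, ← ha]
      rw [Nat.mul_succ, Nat.mul_comm m k'] at hk
      omega
    obtain ⟨a, ha⟩ := (mem_closure_range v x).1 hx
    have hphi : ∀ c : minGens S →₀ ℕ, phi (AddSubmonoid.closure (Set.range v))
        (Finsupp.domCongr e c) = val v c := by
      intro c
      unfold phi
      rw [val_domCongr, hcomp]
    refine ⟨Finsupp.domCongr e a, ?_, ?_⟩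
    · show phi _ _ = x
      rw [hphi, ha]
    · intro b hb
      have hb' : phi _ b = x := hb
      obtain ⟨c, rfl⟩ := (Finsupp.domCongr e : (minGens S →₀ ℕ) ≃+ _).surjective b
      rw [hphi] at hb'
      have hm' : val g c ≡ val g a [MOD m] :=
        ((H.val_mod c).symm.trans (by rw [hb', ha])).trans (H.val_mod a)
      rw [H.del_uniq (hD c hb') (hD a ha) hm']

end sgp

/-! ### Existence of a semigroup with given embedding dimension and multiplicity -/

lemma exists_sgp (e m : ℕ) (h : (e = 1 ∧ m = 1) ∨ (2 ≤ e ∧ e ≤ m)) :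
    ∃ T : AddSubmonoid ℕ, IsNumSgp T ∧ embDim T = e ∧ mult T = m := by
  have hm : 0 < m := by omega
  have hem : e ≤ m := by omega
  have he : 0 < e := by omega
  set T := AddSubmonoid.closure (Set.Ico m (m + e)) with hT
  have hmT : m ∈ T := AddSubmonoid.subset_closure ⟨le_rfl, by omega⟩
  have hP : ∀ x ∈ T, x = 0 ∨ x ∈ Set.Ico m (m + e) ∨ 2 * m ≤ x := by
    intro x hx
    induction hx using AddSubmonoid.closure_induction with
    | mem x hx => exact Or.inr (Or.inl hx)
    | zero => exact Or.inl rfl
    | add x y _ _ hx hy =>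
      simp only [Set.mem_Ico] at hx hy ⊢
      omega
  have hge : ∀ x ∈ T, x ≠ 0 → m ≤ x := by
    intro x hx h0
    have := hP x hx
    simp only [Set.mem_Ico] at this
    omega
  have hgens : minGens T = Set.Ico m (m + e) := by
    ext x
    constructor
    · rintro ⟨hx, hx0, hx1⟩
      have key : ∀ x ∈ T, x ∈ Set.Ico m (m + e) ∨ x = 0 ∨
          ∃ y ∈ T, ∃ z ∈ T, y + z = x ∧ y ≠ 0 ∧ z ≠ 0 := by
        intro x hx
        induction hx using AddSubmonoid.closure_induction with
        | mem x hx => exact Or.inl hx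
        | zero => exact Or.inr (Or.inl rfl)
        | add x y hxT hyT hx hy =>
          by_cases h1 : x = 0
          · subst h1; rw [zero_add]; exact hy
          · by_cases h2 : y = 0
            · subst h2; rw [add_zero]; exact hx
            · exact Or.inr (Or.inr ⟨x, hxT, y, hyT, rfl, h1, h2⟩)
      rcases key x hx with h1 | h1 | ⟨y, hy, z, hz, hyz, hy0, hz0⟩
      · exact h1
      · exact absurd h1 hx0
      · rcases hx1 y hy z hz hyz with h2 | h2
        · exact absurd h2 hy0
        · exact absurd h2 hz0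
    · intro hx
      have hx' := hx
      rw [Set.mem_Ico] at hx'
      refine ⟨AddSubmonoid.subset_closure hx, by omega, ?_⟩
      intro y hy z hz hyz
      by_contra hcon
      push Not at hcon
      have h1 := hge y hy hcon.1
      have h2 := hge z hz hcon.2
      omega
  refine ⟨T, ?_, ?_, ?_⟩
  · unfold IsNumSgp
    rcases h with ⟨rfl, rfl⟩ | ⟨he2, -⟩
    · apply (Set.finite_empty (α := ℕ)).subset
      intro x hx
      exfalso
      apply hx
      have := AddSubmonoid.nsmul_mem _ hmT x
      simpa using this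
    · apply (Set.finite_Iio (m * m)).subset
      intro x hx
      rw [Set.mem_Iio]
      by_contra hcon
      push Not at hcon
      apply hx
      have hm1T : m + 1 ∈ T := AddSubmonoid.subset_closure ⟨by omega, by omega⟩
      have h1 : m ≤ x / m := (Nat.le_div_iff_mul_le hm).2 hcon
      have h2 : x % m < m := Nat.mod_lt _ hm
      have h3 : m * (x / m) + x % m = x := Nat.div_add_mod x m
      obtain ⟨d, hd⟩ := Nat.exists_eq_add_of_le (show x % m ≤ x / m by omega)
      have h4 : d • m + (x % m) • (m + 1) = x := by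
        rw [smul_eq_mul, smul_eq_mul]
        calc d * m + x % m * (m + 1) = m * (x % m + d) + x % m := by ring
          _ = x := by rw [← hd]; exact h3
      have := add_mem (AddSubmonoid.nsmul_mem _ hmT d) (AddSubmonoid.nsmul_mem _ hm1T (x % m))
      rw [h4] at this
      exact this
  · unfold embDim
    rw [hgens, ← Finset.coe_Ico, Set.ncard_coe_finset, Nat.card_Ico]
    omega
  · apply le_antisymm
    · exact mult_le hmT (by omega)
    · exact le_csInf ⟨m, hmT, by omega⟩ (fun x hx => hge x hx.1 hx.2)

/-- **Q1 of MP_e1d67a_co, affirmative.** For all `e, m` with `e = m = 1` or `2 ≤ e ≤ m` there is a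
numerical semigroup `S` with embedding dimension `e`, multiplicity `m` and the largest possible
`η` such that every element of the Apéry set has exactly one factorization. -/
theorem result (e m : ℕ) (h : (e = 1 ∧ m = 1) ∨ (2 ≤ e ∧ e ≤ m)) :
    ∃ S : AddSubmonoid ℕ, IsNumSgp S ∧ embDim S = e ∧ mult S = m ∧
      (∀ T : AddSubmonoid ℕ, IsNumSgp T → embDim T = e → mult T = m → eta T ≤ eta S) ∧
      ∀ x ∈ apery S, ∃! a : Fac S, phi S a = x := by
  have he : 0 < e := by omega
  set A : Set ℕ := {k | ∃ T : AddSubmonoid ℕ, IsNumSgp T ∧ embDim T = e ∧ mult T = m ∧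
    eta T = k} with hA
  have hne : A.Nonempty := by
    obtain ⟨T, h1, h2, h3⟩ := exists_sgp e m h
    exact ⟨_, T, h1, h2, h3, rfl⟩
  have hbdd : BddAbove A := by
    refine ⟨(m + 1) ^ e, ?_⟩
    rintro k ⟨T, h1, h2, h3, rfl⟩
    have := (perturb T h1 (by omega)).1
    rwa [h2, h3] at this
  obtain ⟨T, h1, h2, h3, h4⟩ := Nat.sSup_mem hne hbdd
  obtain ⟨-, S, s1, s2, s3, s4, s5⟩ := perturb T h1 (by omega)
  refine ⟨S, s1, s2.trans h2, s3.trans h3, ?_, s5⟩
  intro T' t1 t2 t3
  have : eta T' ≤ sSup A := le_csSup hbdd ⟨T', t1, t2, t3, rfl⟩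
  omega

end Pool.Agent.Results.MP_e1d67a_co.UniqueApery
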